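import Pool.Agent.T9h44.NK.SpecA
import Pool.Agent.T9h44.NK.SpecB
import Pool.Agent.T9h48.NK.TrCore

/-!
# Project NK: piece STEPL

Author: helper19.
-/

set_option autoImplicit false

open Set
open scoped RealInnerProductSpace

namespace Pool.Agent.T9h19.NK

open Pool.Agent.T9h98.DC Pool.Agent.T9h44.NK

theorem ipc {m : ℕ} {v y y' : E (m + 1)} {x x' : E m} {ι : E m →ₗᵢ[ℝ] E (m + 1)} {l c t t' : ℝ}
    (hv : ‖v‖ = 1) (hι : Ort v ι) (hvy : ⟪v, y⟫ = c) (hvy' : ⟪v, y'⟫ = c)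
    (e1 : y - v = t • (-l • v + ι x)) (e2 : y' - v = t' • (-l • v + ι x')) :
    ⟪y, y'⟫ - 2 * c + 1 = t * t' * (l ^ 2 + ⟪x, x'⟫) := by
  have h1 : ⟪y - v, y' - v⟫ = ⟪y, y'⟫ - 2 * c + 1 := by
    rw [inner_sub_left, inner_sub_right, inner_sub_right, real_inner_self_eq_norm_sq, hv, hvy',
      real_inner_comm v y, hvy]
    ring
  have h2 : ⟪ι x, v⟫ = 0 := by rw [real_inner_comm]; exact hι x
  rw [← h1, e1, e2, inner_smul_left, inner_smul_right, inner_add_left, inner_add_right,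
    inner_add_right, inner_smul_left, inner_smul_right, inner_smul_left, inner_smul_right,
    real_inner_self_eq_norm_sq, hv, hι x', h2, ι.inner_map_map]
  simp only [conj_trivial]
  ring

theorem ip {m : ℕ} {v y y' : E (m + 1)} {x x' : E m} {ι : E m →ₗᵢ[ℝ] E (m + 1)} {l c : ℝ}
    (hv : ‖v‖ = 1) (hι : Ort v ι) (hl : 0 < l) (hy : ‖y‖ = 1)
    (hvy : ⟪v, y⟫ = c) (hvy' : ⟪v, y'⟫ = c) (hx : ‖x‖ = 1)
    (h1 : Pr v (-l • v) ι y x) (h2 : Pr v (-l • v) ι y' x') :
    ⟪x, x'⟫ * (1 - c ^ 2) = ⟪y, y'⟫ - c ^ 2 := by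
  obtain ⟨t, ht, e1⟩ := h1
  obtain ⟨t', ht', e2⟩ := h2
  have a : ∀ (y : E (m + 1)) (x : E m) (t : ℝ), ⟪v, y⟫ = c → y - v = t • (-l • v + ι x) →
      t * l = 1 - c := by
    intro y x t hvy e
    have h : ⟪v, y - v⟫ = ⟪v, t • (-l • v + ι x)⟫ := by rw [e]
    rw [inner_sub_right, inner_smul_right, inner_add_right, inner_smul_right,
      real_inner_self_eq_norm_sq, hv, hι x, hvy] at h
    linarith
  have a1 := a y x t hvy e1
  have a2 := a y' x' t' hvy' e2
  have htt : t' = t := by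
    have : t' * l = t * l := by rw [a1, a2]
    exact mul_right_cancel₀ hl.ne' this
  subst htt
  have b1 := ipc hv hι hvy hvy e1 e1
  have b2 := ipc hv hι hvy hvy' e1 e2
  rw [real_inner_self_eq_norm_sq, real_inner_self_eq_norm_sq, hx, hy] at b1
  have b3 : (t' * l) ^ 2 = (1 - c) ^ 2 := by rw [a1]
  have b4 : t' ^ 2 = 1 - c ^ 2 := by linear_combination -b1 - b3
  linear_combination -b2 - ⟪x, x'⟫ * b4 - b3

theorem adj_image {d : ℕ} {P : Set (E d)} (h : E d ≃ₗᵢ[ℝ] E d) (hP : h '' P = P) {v y : E d}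
    (ha : Adj P v y) : Adj P (h v) (h y) := by
  refine ⟨fun e => ha.1 (h.injective e), ?_⟩
  have h1 := Pool.Agent.T9h48.NK.face_image h hP ha.2
  have h2 : h '' segment ℝ v y = segment ℝ (h v) (h y) :=
    image_segment ℝ (h.toLinearEquiv.toLinearMap.toAffineMap) v y
  rwa [h2] at h1

theorem face_convex {d : ℕ} {P T : Set (E d)} (hP : IsPolytope P) (hT : IsFace P T) :
    Convex ℝ T := by
  have h1 : Convex ℝ P := by
    obtain ⟨⟨s, rfl⟩, -⟩ := hP
    exact convex_convexHull ℝ _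
  exact hT.2.convex h1

/-- the chain of a vertex, an edge and a 2-face -/
def chain {d : ℕ} (hF : S_FACES) {P T : Set (E d)} (hP : IsPolytope P) {v y : E d}
    (ha : Adj P v y) (hT : IsFace P T) (hd : dm T = 2) (hv : v ∈ T) (hy : y ∈ T) : Ch P 3 where
  face := ![{v}, segment ℝ v y, T]
  isFace i := by
    have h1 := (hF d P hP.1).2.2.2.2.2.2.2.2.1 v y ha
    fin_cases i
    · exact h1.1
    · exact ha.2
    · exact hT
  dim i := by
    have h1 := (hF d P hP.1).2.2.2.2.2.2.2.2.1 v y ha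
    fin_cases i
    · change Module.finrank ℝ (vectorSpan ℝ ({v} : Set (E d))) = 0
      rw [vectorSpan_singleton]
      exact finrank_bot ℝ (E d)
    · exact h1.2.2.2
    · exact hd
  mono := by
    have h1 : ({v} : Set (E d)) ⊆ segment ℝ v y := by
      rw [singleton_subset_iff]; exact left_mem_segment ℝ v y
    have h2 : segment ℝ v y ⊆ T := (face_convex hP hT).segment_subset hv hy
    rw [Fin.monotone_iff_le_succ]
    intro i
    fin_cases i
    · exact h1
    · exact h2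

theorem qconst (hF : S_FACES) (hT : S_TWO) {n : ℕ} {P : Set (E (n + 1))}
    {H : Subgroup (E (n + 1) ≃ₗᵢ[ℝ] E (n + 1))} (hP : IsPolytope P) (hH : Pres H P)
    (hPT : PT 3 H P) {v y z v' y' z' : E (n + 1)} {T T' : Set (E (n + 1))}
    (hy : Adj P v y) (hz : Adj P v z) (hyz : y ≠ z) (hT1 : IsFace P T) (hT2 : dm T = 2)
    (vT : v ∈ T) (yT : y ∈ T) (zT : z ∈ T)
    (hy' : Adj P v' y') (hz' : Adj P v' z') (hyz' : y' ≠ z') (hT1' : IsFace P T')
    (hT2' : dm T' = 2) (vT' : v' ∈ T') (yT' : y' ∈ T') (zT' : z' ∈ T') : ⟪y, z⟫ = ⟪y', z'⟫ := by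
  obtain ⟨h, hh, hc⟩ := hPT (chain hF hP hy hT1 hT2 vT yT) (chain hF hP hy' hT1' hT2' vT' yT')
  have c0 : h '' ({v} : Set (E (n + 1))) = {v'} := hc 0
  have c1 : h '' segment ℝ v y = segment ℝ v' y' := hc 1
  have c2 : h '' T = T' := hc 2
  have hP' := hH h hh
  have ev : h v = v' := by
    rw [image_singleton, singleton_eq_singleton_iff] at c0
    exact c0
  have ay := adj_image h hP' hy
  have az := adj_image h hP' hz
  rw [ev] at ay az
  have ey : h y = y' := by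
    have h1 : h y ∈ segment ℝ v' y' := by
      rw [← c1]; exact mem_image_of_mem _ (right_mem_segment ℝ v y)
    have h2 := (hF _ P hP.1).2.2.2.2.2.2.2.2.1 _ _ ay
    rcases (hF _ P hP.1).2.2.2.2.2.2.2.2.2 v' y' hy' (h y) h2.2.1 h1 with h3 | h3
    · exact absurd h3.symm ay.1
    · exact h3
  have ez : h z = z' := by
    have h1 : h z ∈ T' := by rw [← c2]; exact mem_image_of_mem _ zT
    have h2 := (hF _ P hP.1).2.2.2.2.2.2.2.2.1 _ _ hy'
    obtain ⟨p, q, -, -, -, -, -, -, hw, -⟩ := hT n P T' v' hP h2.1 hT1' hT2' vT'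
    have h3 : h z ≠ y' := by
      intro e
      rw [← ey] at e
      exact hyz (h.injective e).symm
    have e1 := hw _ hy' yT'
    have e2 := hw _ hz' zT'
    have e3 := hw _ az h1
    rcases e1 with e1 | e1 <;> rcases e2 with e2 | e2 <;> rcases e3 with e3 | e3
    · exact absurd (e1.trans e2.symm) hyz'
    · exact absurd (e1.trans e2.symm) hyz'
    · exact absurd (e3.trans e1.symm) h3
    · exact e3.trans e2.symm
    · exact e3.trans e2.symm
    · exact absurd (e3.trans e1.symm) h3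
    · exact absurd (e1.trans e2.symm) hyz'
    · exact absurd (e1.trans e2.symm) hyz'
  rw [← ey, ← ez, h.inner_map_map]

theorem stepl (hF : S_FACES) (hVF : S_VF) (hI : S_IOTA) (hNB : S_NB) (hT : S_TWO) (hM1 : S_M1)
    (hM3 : S_M3) (hL1 : S_L1) (hSi : S_SIMP) (hSS : S_SS) : S_STEPL := by
  classical
  intro n hn P H c hP hH hUV hEC hc0 hc1 hPT
  obtain ⟨d, rfl⟩ : ∃ d, n = d + 4 := ⟨n - 4, by omega⟩
  have hvx : ∀ v w, Adj P v w → Vx P v ∧ Vx P w := fun v w h =>
    ⟨((hF _ P hP.1).2.2.2.2.2.2.2.2.1 v w h).1, ((hF _ P hP.1).2.2.2.2.2.2.2.2.1 v w h).2.1⟩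
  have h1c : 0 < 1 - c ^ 2 := by nlinarith
  by_cases hex : ∃ (v y z : E (d + 4 + 1)) (T : Set (E (d + 4 + 1))), Adj P v y ∧ Adj P v z ∧
      y ≠ z ∧ IsFace P T ∧ dm T = 2 ∧ v ∈ T ∧ y ∈ T ∧ z ∈ T
  swap
  · right
    intro v ι l hv hι hl hU x x' hxx
    exfalso
    obtain ⟨l', hl', hsup', hort', hne', -, -⟩ := hM1 _ P v ι c hP hUV hEC (by linarith) hc1 hv hι
    have hv1 := hUV v hv
    have hv0 : v ≠ 0 := by intro e; rw [e, norm_zero] at hv1; norm_num at hv1
    have hsup : Sup P v (-l' • v) := hsup'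
    have hpoly := (hVF _ P v (-l' • v) ι hP hv hsup hne' hort').1
    -- the scaled figure
    have hsupl : Sup P v (-l • v) := by
      intro y hy hyv
      have h1 := hsup' y hy hyv
      rw [inner_smul_right] at h1 ⊢
      nlinarith
    have hortl : Ort (-l • v) ι := fun x => by rw [inner_smul_left, hι x, mul_zero]
    have hnel : -l • v ≠ 0 := smul_ne_zero (neg_ne_zero.2 hl.ne') hv0
    have hpl := (hVF _ P v (-l • v) ι hP hv hsupl hnel hortl).1
    obtain ⟨-, nb2, nb3, nb4⟩ := hNB _ P v (-l • v) ι hP hv hsupl hnel hortl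
    have hvv := (hF _ _ hpl.1).2.2.2.2.2.2.2.2.1 x x' hxx
    obtain ⟨y, hy, py⟩ := nb2 x hvv.1
    obtain ⟨y', hy', py'⟩ := nb2 x' hvv.2.1
    obtain ⟨hne, T, t1, t2, t3, t4, t5⟩ := (nb4 y y' x x' hy hy' py py').1 hxx
    exact hex ⟨v, y, y', T, hy, hy', hne, t1, t2, t3, t4, t5⟩
  obtain ⟨v0, y0, z0, T0, a1, a2, a3, a4, a5, a6, a7, a8⟩ := hex
  obtain ⟨Q, hQ⟩ : ∃ Q : ℝ, Q = ⟪y0, z0⟫ := ⟨_, rfl⟩
  have hQall : ∀ (v y z : E (d + 4 + 1)) (T : Set (E (d + 4 + 1))), Adj P v y → Adj P v z →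
      y ≠ z → IsFace P T → dm T = 2 → v ∈ T → y ∈ T → z ∈ T → ⟪y, z⟫ = Q := by
    intro v y z T b1 b2 b3 b4 b5 b6 b7 b8
    rw [hQ]
    exact qconst hF hT hP hH hPT b1 b2 b3 b4 b5 b6 b7 b8 a1 a2 a3 a4 a5 a6 a7 a8
  have hsq : √(2 - 2 * c) ^ 2 = 2 - 2 * c := Real.sq_sqrt (by linarith)
  have hs0 : 0 < √(2 - 2 * c) := Real.sqrt_pos.2 (by linarith)
  have hdist : ∀ a b, Adj P a b → dist a b = √(2 - 2 * c) := by
    intro a b hab
    have h1 := hUV a (hvx a b hab).1
    have h2 := hUV b (hvx a b hab).2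
    have h3 := hEC a b hab
    rw [dist_eq_norm]
    refine (sq_eq_sq₀ (norm_nonneg _) hs0.le).1 ?_
    rw [hsq, norm_sub_sq_real, h1, h2, h3]
    ring
  obtain ⟨κ, hκ⟩ : ∃ κ : ℝ, κ = (Q - 2 * c + 1) / (2 - 2 * c) := ⟨_, rfl⟩
  have hκs : κ * √(2 - 2 * c) ^ 2 = Q - 2 * c + 1 := by
    have : (2 : ℝ) - 2 * c ≠ 0 := by linarith
    rw [hsq, hκ]; exact div_mul_cancel₀ _ this
  have hin : ∀ v y z, Adj P v y → Adj P v z → ⟪y, z⟫ = Q → ⟪y - v, z - v⟫ = Q - 2 * c + 1 := by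
    intro v y z hy hz hq
    rw [inner_sub_left, inner_sub_right, inner_sub_right, real_inner_self_eq_norm_sq,
      hUV v (hvx v y hy).1, hEC v z hz, real_inner_comm v y, hEC v y hy, hq]
    ring
  have hm3 := hM3 _ P T0 (√(2 - 2 * c)) κ hP a4 a5 hs0 (fun a b hab _ _ => hdist a b hab)
    (fun v y z hy hz hyz vT yT zT => by
      rw [hκs]; exact hin v y z hy hz (hQall v y z T0 hy hz hyz a4 a5 vT yT zT))
    v0 y0 z0 a1 a2 a3 a6 a7 a8
  -- consequences
  have hcases : Q = c ∨ Q ≤ 2 * c - 1 := by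
    have h2c : 0 < 2 - 2 * c := by linarith
    rcases hm3 with ⟨h, -⟩ | ⟨h, -⟩ | h
    · left
      rw [h, hsq] at hκs; linarith
    · right
      rw [h] at hκs; linarith
    · right
      rw [hsq] at hκs
      nlinarith
  rcases hcases with hQc | hQc
  · right
    intro v ι l hv hι hl hU x x' hxx
    obtain ⟨l', hl', hsup', hort', hne', -, -⟩ := hM1 _ P v ι c hP hUV hEC (by linarith) hc1 hv hι
    have hv1 := hUV v hv
    have hv0 : v ≠ 0 := by intro e; rw [e, norm_zero] at hv1; norm_num at hv1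
    have hsupl : Sup P v (-l • v) := by
      intro y hy hyv
      have h1 := hsup' y hy hyv
      rw [inner_smul_right] at h1 ⊢
      nlinarith
    have hortl : Ort (-l • v) ι := fun x => by rw [inner_smul_left, hι x, mul_zero]
    have hnel : -l • v ≠ 0 := smul_ne_zero (neg_ne_zero.2 hl.ne') hv0
    have hpl := (hVF _ P v (-l • v) ι hP hv hsupl hnel hortl).1
    obtain ⟨-, nb2, nb3, nb4⟩ := hNB _ P v (-l • v) ι hP hv hsupl hnel hortl
    have hvv := (hF _ _ hpl.1).2.2.2.2.2.2.2.2.1 x x' hxx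
    obtain ⟨y, hy, py⟩ := nb2 x hvv.1
    obtain ⟨y', hy', py'⟩ := nb2 x' hvv.2.1
    obtain ⟨hne, T, t1, t2, t3, t4, t5⟩ := (nb4 y y' x x' hy hy' py py').1 hxx
    have h5 := hQall v y y' T hy hy' hne t1 t2 t3 t4 t5
    have h6 := ip hv1 hι hl (hUV y (hvx v y hy).2) (hEC v y hy) (hEC v y' hy') (hU x hvv.1) py py'
    rw [h5, hQc] at h6
    have h7 : (1 : ℝ) + c ≠ 0 := by linarith
    rw [eq_div_iff h7]
    have h8 : (1 : ℝ) - c ≠ 0 := by linarith
    apply mul_right_cancel₀ h8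
    linear_combination h6
  · left
    have hsimp : Simp P (√(2 - 2 * c)) (fun _ => κ) := by
      -- local data at a vertex
      have hloc : ∀ v, Vx P v → (∃ X : Finset (E (d + 4 + 1)), X.card = d + 4 + 1 ∧
          ∀ y, y ∈ X ↔ Adj P v y) ∧ ∀ y z, Adj P v y → Adj P v z → y ≠ z →
            ∃ T, IsFace P T ∧ dm T = 2 ∧ v ∈ T ∧ y ∈ T ∧ z ∈ T := by
        intro v hv
        have hv1 := hUV v hv
        have hv0 : v ≠ 0 := by intro e; rw [e, norm_zero] at hv1; norm_num at hv1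
        obtain ⟨ι, hι, -⟩ := hI _ v hv0
        obtain ⟨l, hl, hsup, hort, hne, hUf, hform⟩ :=
          hM1 _ P v ι c hP hUV hEC (by linarith) hc1 hv hι
        have hpl := (hVF _ P v (-l • v) ι hP hv hsup hne hort).1
        obtain ⟨nb1, nb2, nb3, nb4⟩ := hNB _ P v (-l • v) ι hP hv hsup hne hort
        have hfv := fun x x' (h : Adj (fig v (-l • v) ι P) x x') =>
          (hF _ _ hpl.1).2.2.2.2.2.2.2.2.1 x x' h
        have hECf : EC ((Q - c ^ 2) / (1 - c ^ 2)) (fig v (-l • v) ι P) := by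
          intro x x' hxx
          obtain ⟨y, hy, py⟩ := nb2 x (hfv x x' hxx).1
          obtain ⟨y', hy', py'⟩ := nb2 x' (hfv x x' hxx).2.1
          obtain ⟨hne', T, t1, t2, t3, t4, t5⟩ := (nb4 y y' x x' hy hy' py py').1 hxx
          have h5 := hQall v y y' T hy hy' hne' t1 t2 t3 t4 t5
          have h6 := hform y y' x x' hy hy' py py'
          rw [h5] at h6
          rw [eq_div_iff h1c.ne']
          exact h6
        have hneg : (Q - c ^ 2) / (1 - c ^ 2) < 0 :=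
          div_neg_of_neg_of_pos (by nlinarith [sq_nonneg (c - 1), mul_pos hc0 hc0]) h1c
        obtain ⟨⟨w, s', -, -, hw⟩, hall⟩ := hL1 (d + 3) (fig v (-l • v) ι P) _ hpl hUf hECf hneg
        have hvert : ∀ x, Vx (fig v (-l • v) ι P) x → x ∈ Finset.univ.image w := by
          intro x hx
          have h1 := ((hF _ _ hpl.1).2.2.2.1 x).1 hx
          rw [hw] at h1
          have h2 := extremePoints_convexHull_subset h1
          obtain ⟨i, rfl⟩ := h2
          exact Finset.mem_image_of_mem w (Finset.mem_univ i)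
        obtain ⟨-, u, hu1, hu2, hu3, -⟩ := hSi (d + 4) (fig v (-l • v) ι P) (Finset.univ.image w)
          hpl hvert (by
            refine Finset.card_image_le.trans (le_of_eq ?_)
            rw [Finset.card_univ, Fintype.card_fin])
        choose yy hyy1 hyy2 using fun i => nb2 (u i) (hu2 i)
        constructor
        · refine ⟨Finset.univ.image yy, ?_, fun y => ?_⟩
          · rw [Finset.card_image_of_injective, Finset.card_univ, Fintype.card_fin]
            intro i j hij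
            exact hu1 ((nb3 _ _ _ _ (hyy1 i) (hyy1 j) (hyy2 i) (hyy2 j)).2 hij)
          · rw [Finset.mem_image]
            constructor
            · rintro ⟨i, -, rfl⟩; exact hyy1 i
            · intro hy
              obtain ⟨x, hx, px⟩ := nb1 y hy
              obtain ⟨i, rfl⟩ := hu3 x hx
              exact ⟨i, Finset.mem_univ i, (nb3 _ _ _ _ (hyy1 i) hy (hyy2 i) px).1 rfl⟩
        · intro y z hy hz hyz
          obtain ⟨x, hx, px⟩ := nb1 y hy
          obtain ⟨x', hx', px'⟩ := nb1 z hz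
          have h1 : x ≠ x' := fun e => hyz ((nb3 _ _ _ _ hy hz px px').1 e)
          exact ((nb4 y z x x' hy hz px px').1 (hall x x' hx hx' h1)).2
      refine ⟨hs0, hdist, fun v hv => (hloc v hv).1, fun v y z hy hz hyz => ?_⟩
      obtain ⟨T, t1, t2, t3, t4, t5⟩ := (hloc v (hvx v y hy).1).2 y z hy hz hyz
      refine ⟨?_, T, t1, t2, t3, t4, t5⟩
      simp only
      rw [hκs]
      exact hin v y z hy hz (hQall v y z T hy hz hyz t1 t2 t3 t4 t5)
    exact hSS d P _ _ hP hsimp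


end Pool.Agent.T9h19.NK
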